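import Pool.Agent.Q231.SH.Dens
import Pool.Agent.Y911.AA.Main

/-!
# The number of abc triples by radical (from the starting library)
-/

set_option autoImplicit false

namespace Pool.Agent.Q231.SH

open Filter Topology

lemma trip_eq (X : ℝ) : trip X = Pool.Agent.Results.MP_1ea25c_nt.AlmostAllTriples.triples X := by
  ext t
  exact ⟨fun h => ⟨h.1.1, h.1.2.1, h.1.2.2, h.2⟩, fun h => ⟨⟨h.1, h.2.1, h.2.2.1⟩, h.2.2.2⟩⟩

lemma trip_finite (X : ℝ) : (trip X).Finite := by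
  rw [trip_eq]; exact Pool.Agent.Y911.AA.triples_finite' X

lemma trip_count : ∃ C : ℝ, 0 < C ∧ ∀ X : ℝ, 1 ≤ X →
    ((trip X).ncard : ℝ) ≤ C * X ^ ((2 : ℝ) / 3) := by
  obtain ⟨κ, hκ, h1, -⟩ := Pool.Agent.Y911.AA.main
  have h2 : ∀ᶠ X : ℝ in atTop,
      ((Pool.Agent.Results.MP_1ea25c_nt.AlmostAllTriples.triples X).ncard : ℝ) /
        X ^ ((2 : ℝ) / 3) < κ + 1 := (tendsto_order.1 h1).2 _ (by linarith)
  obtain ⟨X0, hX0⟩ := eventually_atTop.1 h2
  set M : ℝ := ((trip (max X0 1)).ncard : ℝ) with hM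
  have hM0 : 0 ≤ M := Nat.cast_nonneg _
  refine ⟨κ + 1 + M, by linarith, fun X hX => ?_⟩
  have hXp : 1 ≤ X ^ ((2 : ℝ) / 3) := Real.one_le_rpow hX (by norm_num)
  rcases le_or_gt (max X0 1) X with h3 | h3
  · have h4 := hX0 X ((le_max_left _ _).trans h3)
    rw [← trip_eq, div_lt_iff₀ (by linarith)] at h4
    nlinarith
  · have h4 : ((trip X).ncard : ℝ) ≤ M := by
      rw [hM]
      have : (trip X).ncard ≤ (trip (max X0 1)).ncard :=
        Set.ncard_le_ncard (fun t ht => ⟨ht.1, ht.2.trans h3.le⟩) (trip_finite _)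
      exact_mod_cast this
    nlinarith

/-- the form used later -/
theorem few {ε : ℝ} (hε : 0 < ε) :
    ∃ Y : ℝ, ∀ (T : ℕ) (B : Finset ℕ), (∀ N ∈ B, N ∈ Finset.Icc 1 T ∧ ∃ t, IsTriple t ∧
      Y < (rad3 t : ℝ) ∧ rad3 t ∣ 2 * N) → (B.card : ℝ) ≤ ε * T := by
  obtain ⟨C, hC, h⟩ := trip_count
  exact few_large hC trip_finite h hε

end Pool.Agent.Q231.SH
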