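import Mathlib

/-!
# Configurations of points of the line with the same cross ratios
-/

set_option autoImplicit false

namespace Pool.Agent.Q231.SH

/-- Two configurations of distinct rational points with the same cross ratios (with respect to the
points with the indices `i0, i1, i2`) differ by a fractional linear transformation. -/
theorem exists_moebius {ι : Type*} (a b : ι → ℚ) (ha : Function.Injective a)
    (hb : Function.Injective b) {i0 i1 i2 : ι} (h01 : i0 ≠ i1) (h02 : i0 ≠ i2) (h12 : i1 ≠ i2)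
    (h : ∀ i, (a i - a i0) * (a i1 - a i2) / ((a i - a i2) * (a i1 - a i0)) =
      (b i - b i0) * (b i1 - b i2) / ((b i - b i2) * (b i1 - b i0))) :
    ∃ α β γ δ : ℚ, α * δ - β * γ ≠ 0 ∧
      ∀ i, γ * a i + δ ≠ 0 ∧ b i * (γ * a i + δ) = α * a i + β := by
  have hne : ∀ {i j}, i ≠ j → a i - a j ≠ 0 := fun h h0 => h (ha (sub_eq_zero.1 h0))
  have hnb : ∀ {i j}, i ≠ j → b i - b j ≠ 0 := fun h h0 => h (hb (sub_eq_zero.1 h0))
  set A : ℚ := a i1 - a i2 with hA
  set C : ℚ := a i1 - a i0 with hC
  set A' : ℚ := b i1 - b i2 with hA'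
  set C' : ℚ := b i1 - b i0 with hC'
  have hA0 : A ≠ 0 := hne h12
  have hC0 : C ≠ 0 := hne h01.symm
  have hA0' : A' ≠ 0 := hnb h12
  have hC0' : C' ≠ 0 := hnb h01.symm
  have h20 : a i2 - a i0 ≠ 0 := hne h02.symm
  have h20' : b i2 - b i0 ≠ 0 := hnb h02.symm
  -- the cross product relation
  have hcr : ∀ i, (a i - a i0) * A * ((b i - b i2) * C') =
      (b i - b i0) * A' * ((a i - a i2) * C) := by
    intro i
    by_cases hi : i = i2
    · subst hi; ring
    · have h1 := h i
      rwa [div_eq_div_iff (mul_ne_zero (hne hi) hC0) (mul_ne_zero (hnb hi) hC0')] at h1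
  -- matrices `M_a = (A, -a0 A; C, -a2 C)` and the same for `b`; the map is `adj(M_b) M_a`
  refine ⟨(-(b i2) * C') * A + (b i0 * A') * C, (-(b i2) * C') * (-(a i0) * A) +
    (b i0 * A') * (-(a i2) * C), -C' * A + A' * C, -C' * (-(a i0) * A) + A' * (-(a i2) * C),
    ?_, ?_⟩
  · have e : ((-(b i2) * C') * A + (b i0 * A') * C) *
        (-C' * (-(a i0) * A) + A' * (-(a i2) * C)) -
        ((-(b i2) * C') * (-(a i0) * A) + (b i0 * A') * (-(a i2) * C)) *
        (-C' * A + A' * C) =
        (A' * C' * (b i2 - b i0)) * (A * C * (a i2 - a i0)) := by ring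
    rw [e]
    exact mul_ne_zero (mul_ne_zero (mul_ne_zero hA0' hC0') h20')
      (mul_ne_zero (mul_ne_zero hA0 hC0) h20)
  · intro i
    have hd' : A' * C' * (b i2 - b i0) ≠ 0 := mul_ne_zero (mul_ne_zero hA0' hC0') h20'
    have hd : A * C * (a i2 - a i0) ≠ 0 := mul_ne_zero (mul_ne_zero hA0 hC0) h20
    have h1 := hcr i
    have e2 : b i * ((-C' * A + A' * C) * a i + (-C' * (-(a i0) * A) + A' * (-(a i2) * C))) =
        (((-(b i2) * C') * A + (b i0 * A') * C) * a i + ((-(b i2) * C') * (-(a i0) * A) +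
          (b i0 * A') * (-(a i2) * C))) := by
      linear_combination -h1
    refine ⟨?_, e2⟩
    intro h0
    have h2 := e2
    rw [h0, mul_zero] at h2
    -- both entries of `adj(M_b) M_a (a i, 1)` vanish, so `M_a (a i, 1) = 0`
    have h3 : (A' * C' * (b i2 - b i0)) * ((a i - a i0) * A) = 0 := by
      have : (A' * C' * (b i2 - b i0)) * ((a i - a i0) * A) =
          -A' * (((-(b i2) * C') * A + (b i0 * A') * C) * a i + ((-(b i2) * C') * (-(a i0) * A) +
          (b i0 * A') * (-(a i2) * C))) + (b i0 * A') *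
          ((-C' * A + A' * C) * a i + (-C' * (-(a i0) * A) + A' * (-(a i2) * C))) -
          2 * 0 := by ring
      rw [this, ← h2, h0]; ring
    have h4 : (A' * C' * (b i2 - b i0)) * ((a i - a i2) * C) = 0 := by
      have : (A' * C' * (b i2 - b i0)) * ((a i - a i2) * C) =
          -C' * (((-(b i2) * C') * A + (b i0 * A') * C) * a i + ((-(b i2) * C') * (-(a i0) * A) +
          (b i0 * A') * (-(a i2) * C))) + (b i2 * C') *
          ((-C' * A + A' * C) * a i + (-C' * (-(a i0) * A) + A' * (-(a i2) * C))) -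
          2 * 0 := by ring
      rw [this, ← h2, h0]; ring
    have h5 : a i - a i0 = 0 :=
      (mul_eq_zero.1 ((mul_eq_zero.1 h3).resolve_left hd')).resolve_right hA0
    have h6 : a i - a i2 = 0 :=
      (mul_eq_zero.1 ((mul_eq_zero.1 h4).resolve_left hd')).resolve_right hC0
    apply h20
    linarith

end Pool.Agent.Q231.SH
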