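import Pool.Agent.Q231.SH.Count
import Pool.Agent.Q231.SH.Moeb

/-!
# Hyperelliptic curves over most open subschemes of `Spec ℤ`
-/

set_option autoImplicit false

namespace Pool.Agent.Q231.SH

open Polynomial Filter Topology

/-- The curve `y² = d ∏ (x - a i)` of genus `g` has good reduction at the odd prime `p`: the
substitution `x ↦ (α x + β) / (γ x + δ)`, `y ↦ y / (e (γ x + δ) ^ (g + 1))` turns it into
`y² = F(x)`, where `F` has integral coefficients and its reduction modulo `p` is squarefree of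
degree `2 g + 1` or `2 g + 2`. -/
def GoodReduction (p : ℕ) {g : ℕ} (d : ℚ) (a : Fin (2 * g + 2) → ℚ) : Prop :=
  ∃ (α β γ δ e : ℚ) (F : ℤ[X]), α * δ - β * γ ≠ 0 ∧ e ≠ 0 ∧
    F.map (Int.castRingHom ℚ) =
      C (e ^ 2 * d) * ∏ i, (C (α - a i * γ) * X + C (β - a i * δ)) ∧
    Squarefree (F.map (Int.castRingHom (ZMod p))) ∧
    2 * g + 1 ≤ (F.map (Int.castRingHom (ZMod p))).natDegree

/-- The curve `y² = d ∏ (x - a i)` (`d ≠ 0`, the `2 g + 2` rational numbers `a i` distinct) has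
good reduction at all odd primes which do not divide `N`. -/
def GoodOutside (N : ℕ) {g : ℕ} (d : ℚ) (a : Fin (2 * g + 2) → ℚ) : Prop :=
  d ≠ 0 ∧ Function.Injective a ∧ ∀ p : ℕ, p.Prime → p ≠ 2 → ¬ p ∣ N → GoodReduction p d a

/-- The curves `y² = d ∏ (x - a i)` and `y² = d' ∏ (x - b i)` are isomorphic over the algebraic
closure of `ℚ`: a fractional linear transformation maps the branch points to the branch points. -/
def IsoQbar {g : ℕ} (a b : Fin (2 * g + 2) → ℚ) : Prop :=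
  ∃ (α β γ δ : AlgebraicClosure ℚ) (σ : Equiv.Perm (Fin (2 * g + 2))), α * δ - β * γ ≠ 0 ∧
    ∀ i, γ * algebraMap ℚ (AlgebraicClosure ℚ) (a i) + δ ≠ 0 ∧
      algebraMap ℚ (AlgebraicClosure ℚ) (b (σ i)) *
        (γ * algebraMap ℚ (AlgebraicClosure ℚ) (a i) + δ) =
        α * algebraMap ℚ (AlgebraicClosure ℚ) (a i) + β

/-- a configuration of `2 g + 2` rational numbers -/
abbrev Config : Type := Σ g : ℕ, (Fin (2 * g + 2) → ℚ)

/-- the three base indices -/
def I0 {g : ℕ} : Fin (2 * g + 2) := ⟨0, by omega⟩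
def I1 {g : ℕ} : Fin (2 * g + 2) := ⟨1, by omega⟩

/-- the cross ratios of a configuration -/
noncomputable def cross {g : ℕ} (h : 1 ≤ g) (a : Fin (2 * g + 2) → ℚ) (i : Fin (2 * g + 2)) : ℚ :=
  (a i - a ⟨0, by omega⟩) * (a ⟨1, by omega⟩ - a ⟨2, by omega⟩) /
    ((a i - a ⟨2, by omega⟩) * (a ⟨1, by omega⟩ - a ⟨0, by omega⟩))

lemma rad3_dvd {s : ℕ × ℕ} {M : ℕ}
    (h : ∀ p : ℕ, p.Prime → p ∣ s.1 * s.2 * (s.1 + s.2) → p ∣ M) : rad3 s ∣ M := by
  unfold rad3
  apply Finset.prod_primes_dvd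
  · intro p hp
    exact (Nat.prime_of_mem_primeFactors hp).prime
  · intro p hp
    exact h p (Nat.prime_of_mem_primeFactors hp) (Nat.dvd_of_mem_primeFactors hp)

/-- the cross ratios of a curve with good reduction outside a typical `N` lie in a fixed set -/
lemma cross_mem {g : ℕ} (hg : 1 ≤ g) {N : ℕ} {d : ℚ} {a : Fin (2 * g + 2) → ℚ}
    (h : GoodOutside N d a) {Y : ℝ} (hN : ¬ ∃ t, IsTriple t ∧ Y < (rad3 t : ℝ) ∧ rad3 t ∣ 2 * N)
    (i : Fin (2 * g + 2)) (hi : 3 ≤ i.1) :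
    ∃ s ∈ trip Y, cross hg a i ∈ six s := by
  obtain ⟨hd, hinj, hgood⟩ := h
  have hneq : ∀ {i j : Fin (2 * g + 2)}, i ≠ j → a i - a j ≠ 0 :=
    fun h h0 => h (hinj (sub_eq_zero.1 h0))
  set J0 : Fin (2 * g + 2) := ⟨0, by omega⟩ with hJ0
  set J1 : Fin (2 * g + 2) := ⟨1, by omega⟩ with hJ1
  set J2 : Fin (2 * g + 2) := ⟨2, by omega⟩ with hJ2
  have n0 : i ≠ J0 := by rw [hJ0, Ne, Fin.ext_iff]; simp only; omega
  have n1 : i ≠ J1 := by rw [hJ1, Ne, Fin.ext_iff]; simp only; omega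
  have n2 : i ≠ J2 := by rw [hJ2, Ne, Fin.ext_iff]; simp only; omega
  have n01 : J0 ≠ J1 := by rw [hJ0, hJ1, Ne, Fin.ext_iff]; simp
  have n02 : J0 ≠ J2 := by rw [hJ0, hJ2, Ne, Fin.ext_iff]; simp
  have n12 : J1 ≠ J2 := by rw [hJ1, hJ2, Ne, Fin.ext_iff]; simp
  have hc : cross hg a i = (a i - a J0) * (a J1 - a J2) / ((a i - a J2) * (a J1 - a J0)) := rfl
  have hden : (a i - a J2) * (a J1 - a J0) ≠ 0 := mul_ne_zero (hneq n2) (hneq n01.symm)
  have ht0 : cross hg a i ≠ 0 := by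
    rw [hc]
    exact div_ne_zero (mul_ne_zero (hneq n0) (hneq n12)) hden
  have ht1 : cross hg a i ≠ 1 := by
    rw [hc]
    intro h
    rw [div_eq_one_iff_eq hden] at h
    have h2 : (a i - a J1) * (a J0 - a J2) = 0 := by linear_combination h
    exact mul_ne_zero (hneq n1) (hneq n02) h2
  obtain ⟨s, hs, h6, hp⟩ := exists_triple_of_unit (cross hg a i) ht0 ht1 N (by
    intro p hp hp2 hpN
    obtain ⟨α, β, γ, δ, e, F, hdet, he, hF, hsq, hdeg⟩ := hgood p hp hp2 hpN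
    rw [hc]
    exact cross_unit hp a α β γ δ _ F hdet hF hsq
      (by rw [Fintype.card_fin]; omega) n0 n1 n01 n2 n02 n12 hinj)
  have h1 := rad3_dvd hp
  refine ⟨s, ⟨hs, ?_⟩, h6⟩
  by_contra hlt
  exact hN ⟨s, hs, not_le.1 hlt, h1⟩

/-- different points have different cross ratios -/
lemma cross_inj {g : ℕ} (hg : 1 ≤ g) {a : Fin (2 * g + 2) → ℚ} (ha : Function.Injective a)
    {i j : Fin (2 * g + 2)} (hi : 3 ≤ i.1) (hj : 3 ≤ j.1) (h : cross hg a i = cross hg a j) :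
    i = j := by
  have hneq : ∀ {i j : Fin (2 * g + 2)}, i ≠ j → a i - a j ≠ 0 :=
    fun h h0 => h (ha (sub_eq_zero.1 h0))
  set J0 : Fin (2 * g + 2) := ⟨0, by omega⟩ with hJ0
  set J1 : Fin (2 * g + 2) := ⟨1, by omega⟩ with hJ1
  set J2 : Fin (2 * g + 2) := ⟨2, by omega⟩ with hJ2
  have n2 : i ≠ J2 := by rw [hJ2, Ne, Fin.ext_iff]; simp only; omega
  have m2 : j ≠ J2 := by rw [hJ2, Ne, Fin.ext_iff]; simp only; omega
  have n01 : J0 ≠ J1 := by rw [hJ0, hJ1, Ne, Fin.ext_iff]; simp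
  have n02 : J0 ≠ J2 := by rw [hJ0, hJ2, Ne, Fin.ext_iff]; simp
  have n12 : J1 ≠ J2 := by rw [hJ1, hJ2, Ne, Fin.ext_iff]; simp
  have hc : ∀ i, cross hg a i = (a i - a J0) * (a J1 - a J2) / ((a i - a J2) * (a J1 - a J0)) :=
    fun _ => rfl
  rw [hc, hc, div_eq_div_iff (mul_ne_zero (hneq n2) (hneq n01.symm))
    (mul_ne_zero (hneq m2) (hneq n01.symm))] at h
  have h1 : (a i - a j) * ((a J0 - a J2) * ((a J1 - a J2) * (a J1 - a J0))) = 0 := by
    linear_combination h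
  have h2 := (mul_eq_zero.1 h1).resolve_right
    (mul_ne_zero (hneq n02) (mul_ne_zero (hneq n12) (hneq n01.symm)))
  exact ha (sub_eq_zero.1 h2)

/-- equal cross ratios: isomorphic curves -/
lemma iso_of_cross {g : ℕ} (hg : 1 ≤ g) {a b : Fin (2 * g + 2) → ℚ} (ha : Function.Injective a)
    (hb : Function.Injective b) (h : cross hg a = cross hg b) : IsoQbar a b := by
  have n01 : (⟨0, by omega⟩ : Fin (2 * g + 2)) ≠ ⟨1, by omega⟩ := by simp
  have n02 : (⟨0, by omega⟩ : Fin (2 * g + 2)) ≠ ⟨2, by omega⟩ := by simp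
  have n12 : (⟨1, by omega⟩ : Fin (2 * g + 2)) ≠ ⟨2, by omega⟩ := by simp
  obtain ⟨α, β, γ, δ, hdet, hm⟩ := exists_moebius a b ha hb n01 n02 n12 (fun i => congrFun h i)
  set ρ := algebraMap ℚ (AlgebraicClosure ℚ) with hρ
  have hinj : Function.Injective ρ := ρ.injective
  refine ⟨ρ α, ρ β, ρ γ, ρ δ, 1, ?_, fun i => ⟨?_, ?_⟩⟩
  · rw [← map_mul, ← map_mul, ← map_sub]
    exact (map_ne_zero ρ).2 hdet
  · rw [← map_mul, ← map_add]
    exact (map_ne_zero ρ).2 (hm i).1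
  · rw [← map_mul, ← map_add, ← map_mul, ← map_mul, ← map_add]
    exact congrArg ρ (hm i).2

/-- **One finite list for most bases.** -/
theorem exists_list {ε : ℝ} (hε : 0 < ε) : ∃ L : Set Config, L.Finite ∧
    (∀ x ∈ L, Function.Injective x.2) ∧
    ∀ (T : ℕ) (B : Finset ℕ), (∀ N ∈ B, N ∈ Finset.Icc 1 T ∧ ∃ (g : ℕ) (d : ℚ)
      (a : Fin (2 * g + 2) → ℚ), 1 ≤ g ∧ GoodOutside N d a ∧
        ∀ b : Fin (2 * g + 2) → ℚ, (⟨g, b⟩ : Config) ∈ L → ¬ IsoQbar a b) →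
      (B.card : ℝ) ≤ ε * T := by
  classical
  obtain ⟨Y, hY⟩ := few hε
  -- the cross ratios
  set Λ : Set ℚ := ⋃ s ∈ trip Y, (six s : Set ℚ) with hΛ
  have hΛfin : Λ.Finite := (trip_finite Y).biUnion fun s _ => Finset.finite_toSet _
  set Λ1 : Set ℚ := insert 0 (insert 1 Λ) with hΛ1
  have hΛ1fin : Λ1.Finite := (hΛfin.insert 1).insert 0
  set G : ℕ := Λ.ncard with hG
  set Q : Set Config := {x | ∃ h : 1 ≤ x.1, Function.Injective x.2 ∧
    (∀ i : Fin (2 * x.1 + 2), 3 ≤ i.1 → cross h x.2 i ∈ Λ)} with hQ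
  set Ψ : Config → Config := fun x => ⟨x.1, if h : 1 ≤ x.1 then cross h x.2 else 0⟩ with hΨ
  have hQg : ∀ x ∈ Q, x.1 ≤ G := by
    rintro ⟨g, a⟩ ⟨hg, hinj, hcr⟩
    simp only at hg hinj hcr
    -- the indices from 3 on inject into `Λ`
    have h1 : (Set.range (fun k : Fin (2 * g - 1) =>
        cross hg a ⟨k.1 + 3, by omega⟩)) ⊆ Λ := by
      rintro _ ⟨k, rfl⟩
      exact hcr _ (by simp)
    have h2 : Function.Injective (fun k : Fin (2 * g - 1) =>
        cross hg a ⟨k.1 + 3, by omega⟩) := by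
      intro k l hkl
      have := cross_inj hg hinj (by simp) (by simp) hkl
      rw [Fin.ext_iff] at this ⊢
      simpa using this
    have h3 := Set.ncard_le_ncard h1 hΛfin
    rw [← Set.image_univ, Set.ncard_image_of_injective _ h2, Set.ncard_univ, Nat.card_eq_fintype_card,
      Fintype.card_fin] at h3
    simp only
    omega
  have himg : (Ψ '' Q).Finite := by
    have hsub : Ψ '' Q ⊆ ⋃ g ∈ Set.Iic G, (fun t : Fin (2 * g + 2) → ℚ => (⟨g, t⟩ : Config)) ''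
        (Set.univ.pi fun _ => Λ1) := by
      rintro _ ⟨⟨g, a⟩, hx, rfl⟩
      have hgG := hQg _ hx
      obtain ⟨hg, hinj, hcr⟩ := hx
      simp only at hg hinj hcr hgG
      simp only [Set.mem_iUnion, Set.mem_image, hΨ]
      refine ⟨g, hgG, cross hg a, ?_, by rw [dif_pos hg]⟩
      intro i _
      have hneq : ∀ {i j : Fin (2 * g + 2)}, i ≠ j → a i - a j ≠ 0 :=
        fun h h0 => h (hinj (sub_eq_zero.1 h0))
      by_cases hi : 3 ≤ i.1
      · exact Or.inr (Or.inr (hcr i hi))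
      · have : i.1 = 0 ∨ i.1 = 1 ∨ i.1 = 2 := by omega
        rcases this with h0 | h0 | h0
        · left
          have : i = ⟨0, by omega⟩ := Fin.ext h0
          rw [this]; unfold cross; simp
        · right; left
          have : i = ⟨1, by omega⟩ := Fin.ext h0
          rw [this]; unfold cross
          have n12 : (⟨1, by omega⟩ : Fin (2 * g + 2)) ≠ ⟨2, by omega⟩ := by simp
          have n10 : (⟨1, by omega⟩ : Fin (2 * g + 2)) ≠ ⟨0, by omega⟩ := by simp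
          rw [div_eq_one_iff_eq (mul_ne_zero (hneq n12) (hneq n10))]
          ring
        · left
          have : i = ⟨2, by omega⟩ := Fin.ext h0
          rw [this]; unfold cross; simp
    refine Set.Finite.subset ?_ hsub
    refine (Set.finite_Iic G).biUnion fun g _ => ?_
    exact (Set.Finite.pi' fun _ => hΛ1fin).subset (by
      intro t ht i; exact ht i (Set.mem_univ _)) |>.image _
  obtain ⟨L, hLQ, hbij⟩ := Set.exists_subset_bijOn Q Ψ
  have hLfin : L.Finite := by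
    apply Set.Finite.of_finite_image _ hbij.injOn
    rw [hbij.image_eq]; exact himg
  refine ⟨L, hLfin, fun x hx => (hLQ hx).2.1, fun T B hB => ?_⟩
  apply hY T B
  intro N hN
  obtain ⟨hN1, g, d, a, hg, hgood, hno⟩ := hB N hN
  refine ⟨hN1, ?_⟩
  by_contra hcon
  have hxQ : (⟨g, a⟩ : Config) ∈ Q := by
    refine ⟨hg, hgood.2.1, fun i hi => ?_⟩
    obtain ⟨s, hs, h6⟩ := cross_mem hg hgood hcon i hi
    exact Set.mem_biUnion hs h6
  obtain ⟨y, hyL, hy⟩ := hbij.surjOn ⟨_, hxQ, rfl⟩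
  obtain ⟨g', b⟩ := y
  have hg' : g' = g := congrArg Sigma.fst hy
  subst hg'
  have hcb : cross hg b = cross hg a := by
    simp only [hΨ, dif_pos hg] at hy
    have := (Sigma.mk.inj_iff.1 hy).2
    exact eq_of_heq this
  exact hno b hyL (iso_of_cross hg hgood.2.1 (hLQ hyL).2.1 hcb.symm)

end Pool.Agent.Q231.SH
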