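import Pool.Agent.Q231.SH.Triple

/-!
# Most integers are divisible by the radicals of few abc triples
-/

set_option autoImplicit false

namespace Pool.Agent.Q231.SH

open Filter Topology

/-- the radical of the triple -/
def rad3 (t : ℕ × ℕ) : ℕ := ∏ q ∈ (t.1 * t.2 * (t.1 + t.2)).primeFactors, q

/-- the triples of radical at most `X` -/
def trip (X : ℝ) : Set (ℕ × ℕ) := {t | IsTriple t ∧ (rad3 t : ℝ) ≤ X}

/-- the squarefree integers in `[1, T]` -/
def sqf (T : ℕ) : Finset ℕ := (Finset.Icc 1 T).filter Squarefree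

lemma card_multiples (T d : ℕ) :
    ((Finset.Icc 1 T).filter (fun n => d ∣ n)).card = T / d := by
  have h : (Finset.Icc 1 T) = Finset.Ioc 0 T := by
    ext x; simp [Nat.succ_le_iff]
  rw [h, Nat.Ioc_filter_dvd_card_eq_div]

/-- at least one quarter of the integers are squarefree -/
lemma le_sqf (T : ℕ) : (T : ℝ) ≤ 4 * (sqf T).card := by
  classical
  have h1 : (Finset.Icc 1 T).filter (fun n => ¬ Squarefree n) ⊆
      (Finset.Icc 2 (T + 1)).biUnion (fun d => (Finset.Icc 1 T).filter (fun n => d * d ∣ n)) := by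
    intro n hn
    rw [Finset.mem_filter, Finset.mem_Icc] at hn
    obtain ⟨⟨hn1, hn2⟩, hsq⟩ := hn
    rw [Nat.squarefree_iff_prime_squarefree] at hsq
    push Not at hsq
    obtain ⟨p, hp, hdvd⟩ := hsq
    rw [Finset.mem_biUnion]
    refine ⟨p, ?_, Finset.mem_filter.2 ⟨Finset.mem_Icc.2 ⟨hn1, hn2⟩, hdvd⟩⟩
    rw [Finset.mem_Icc]
    refine ⟨hp.two_le, ?_⟩
    have h2 := Nat.le_of_dvd (by omega) hdvd
    nlinarith [hp.two_le]
  have h2 : (((Finset.Icc 1 T).filter (fun n => ¬ Squarefree n)).card : ℝ) ≤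
      ∑ d ∈ Finset.Icc 2 (T + 1), (T : ℝ) / (d * d) := by
    have h3 := (Finset.card_le_card h1).trans Finset.card_biUnion_le
    have h4 : (((Finset.Icc 1 T).filter (fun n => ¬ Squarefree n)).card : ℝ) ≤
        ∑ d ∈ Finset.Icc 2 (T + 1),
          (((Finset.Icc 1 T).filter (fun n => d * d ∣ n)).card : ℝ) := by exact_mod_cast h3
    refine h4.trans (Finset.sum_le_sum fun d _ => ?_)
    rw [card_multiples]
    refine Nat.cast_div_le.trans ?_
    push_cast
    exact le_rfl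
  have h3 : ∀ n : ℕ, ∑ d ∈ Finset.Icc 2 (n + 2), (1 : ℝ) / (d * d) ≤
      3 / 4 - 1 / (n + 2) + 1 / 4 - 1 / 4 := by
    intro n
    induction n with
    | zero => norm_num
    | succ n ih =>
      rw [show n + 1 + 2 = (n + 2) + 1 by ring, Finset.sum_Icc_succ_top (by omega)]
      have h5 : (1 : ℝ) / (((n + 2 + 1 : ℕ) : ℝ) * ((n + 2 + 1 : ℕ) : ℝ)) ≤
          1 / (n + 2) - 1 / ((n + 1 : ℕ) + 2) := by
        push_cast
        have e : (1 : ℝ) / (n + 2) - 1 / (n + 1 + 2) = 1 / ((n + 2) * (n + 3)) := by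
          field_simp
          ring
        rw [e]
        apply one_div_le_one_div_of_le (by positivity)
        nlinarith [(Nat.cast_nonneg n : (0 : ℝ) ≤ n)]
      linarith
  have h4 : ∑ d ∈ Finset.Icc 2 (T + 1), (T : ℝ) / (d * d) ≤ 3 / 4 * T := by
    have h5 : ∑ d ∈ Finset.Icc 2 (T + 1), (T : ℝ) / (d * d) =
        T * ∑ d ∈ Finset.Icc 2 (T + 1), (1 : ℝ) / (d * d) := by
      rw [Finset.mul_sum]
      exact Finset.sum_congr rfl fun d _ => by ring
    rw [h5]
    rcases Nat.eq_zero_or_pos T with h6 | h6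
    · subst h6; simp
    · obtain ⟨n, rfl⟩ : ∃ n, T = n + 1 := ⟨T - 1, by omega⟩
      have h7 := h3 n
      have h8 : (0 : ℝ) ≤ 1 / (n + 2) := by positivity
      have h9 : ∑ d ∈ Finset.Icc 2 (n + 1 + 1), (1 : ℝ) / (d * d) ≤ 3 / 4 := by
        have : n + 1 + 1 = n + 2 := rfl
        rw [this]; linarith
      nlinarith [(Nat.cast_nonneg (n + 1) : (0 : ℝ) ≤ ((n + 1 : ℕ) : ℝ))]
  have h5 : ((Finset.Icc 1 T).card : ℝ) = (sqf T).card +
      ((Finset.Icc 1 T).filter (fun n => ¬ Squarefree n)).card := by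
    have := Finset.card_filter_add_card_filter_not (s := Finset.Icc 1 T) (fun n => Squarefree n)
    unfold sqf
    exact_mod_cast this.symm
  rw [Nat.card_Icc, Nat.add_sub_cancel] at h5
  linarith

/-- the number of the `N ≤ T` such that `r` divides `2 N` -/
lemma card_dvd_two_mul (T r : ℕ) :
    ((Finset.Icc 1 T).filter (fun N => r ∣ 2 * N)).card ≤ 2 * T / r := by
  classical
  rw [← card_multiples]
  apply Finset.card_le_card_of_injOn (fun N => 2 * N)
  · intro N hN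
    simp only [Finset.coe_filter, Finset.mem_Icc, Set.mem_ofPred_eq] at hN ⊢
    omega
  · intro x _ y _ h
    simpa using h

/-- The integers `N ≤ T` which are divisible, up to a factor two, by the radical of an abc triple
with radical greater than `Y` are few. -/
theorem few_large {C : ℝ} (hC : 0 < C) (hfin : ∀ X : ℝ, (trip X).Finite)
    (hcount : ∀ X : ℝ, 1 ≤ X → ((trip X).ncard : ℝ) ≤ C * X ^ ((2 : ℝ) / 3)) {ε : ℝ}
    (hε : 0 < ε) :
    ∃ Y : ℝ, ∀ (T : ℕ) (B : Finset ℕ), (∀ N ∈ B, N ∈ Finset.Icc 1 T ∧ ∃ t, IsTriple t ∧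
      Y < (rad3 t : ℝ) ∧ rad3 t ∣ 2 * N) → (B.card : ℝ) ≤ ε * T := by
  classical
  -- the exponent where we start
  obtain ⟨k0, hk0⟩ : ∃ k0 : ℕ, 16 * C / 2 ^ k0 ≤ ε := by
    obtain ⟨k0, hk0⟩ := pow_unbounded_of_one_lt (16 * C / ε) (one_lt_two)
    refine ⟨k0, ?_⟩
    rw [div_le_iff₀ (by positivity)]
    rw [div_lt_iff₀ hε] at hk0
    linarith
  refine ⟨8 ^ k0, fun T B hB => ?_⟩
  have h8 : ∀ k : ℕ, (((8 : ℝ) ^ k) ^ ((2 : ℝ) / 3)) = 4 ^ k := by
    intro k
    have : (8 : ℝ) ^ ((2 : ℝ) / 3) = 4 := by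
      rw [show (8 : ℝ) = 2 ^ (3 : ℝ) by norm_num, ← Real.rpow_mul (by norm_num)]
      norm_num
    rw [← Real.rpow_natCast, ← Real.rpow_mul (by norm_num), mul_comm, Real.rpow_mul (by norm_num),
      this, Real.rpow_natCast]
  set S : ℕ → Finset (ℕ × ℕ) := fun k =>
    (hfin (8 ^ (k + 1))).toFinset.filter (fun t => (8 : ℝ) ^ k < rad3 t) with hS
  have hScard : ∀ k, ((S k).card : ℝ) ≤ C * 4 ^ (k + 1) := by
    intro k
    have h1 : (S k).card ≤ (trip (8 ^ (k + 1))).ncard := by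
      rw [Set.ncard_eq_toFinset_card _ (hfin _)]
      exact Finset.card_le_card (Finset.filter_subset _ _)
    have h2 := hcount (8 ^ (k + 1)) (one_le_pow₀ (by norm_num))
    rw [h8] at h2
    have h3 : ((S k).card : ℝ) ≤ (trip (8 ^ (k + 1))).ncard := by exact_mod_cast h1
    linarith
  have hsub : B ⊆ (Finset.Ico k0 (k0 + 2 * T)).biUnion (fun k =>
        (S k).biUnion (fun t => (Finset.Icc 1 T).filter (fun N => rad3 t ∣ 2 * N))) := by
    intro N hN
    obtain ⟨hN, t, ht, hY, hdvd⟩ := hB N hN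
    have hN' := Finset.mem_Icc.1 hN
    -- the block of the radical
    have hex : ∃ k : ℕ, (rad3 t : ℝ) ≤ 8 ^ (k + 1) := by
      obtain ⟨k, hk⟩ := pow_unbounded_of_one_lt (rad3 t : ℝ) (by norm_num : (1 : ℝ) < 8)
      exact ⟨k, hk.le.trans (pow_le_pow_right₀ (by norm_num) (Nat.le_succ k))⟩
    set k := Nat.find hex with hk
    have hk1 : (rad3 t : ℝ) ≤ 8 ^ (k + 1) := Nat.find_spec hex
    have hkk0 : k0 ≤ k := by
      by_contra hlt
      have h1 : (8 : ℝ) ^ (k + 1) ≤ 8 ^ k0 := pow_le_pow_right₀ (by norm_num) (by omega)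
      linarith
    have hk2 : (8 : ℝ) ^ k < rad3 t := by
      rcases Nat.eq_zero_or_pos k with h0 | h0
      · have h1 : k0 = 0 := by omega
        rw [h0]; rw [h1] at hY; exact hY
      · have h1 := Nat.find_min hex (m := k - 1) (by omega)
        rw [not_le] at h1
        rwa [Nat.sub_add_cancel h0] at h1
    have hkT : k < k0 + 2 * T := by
      have h1 : rad3 t ≤ 2 * N := Nat.le_of_dvd (by omega) hdvd
      have h2 : (8 : ℝ) ^ k < (2 * T : ℕ) := by
        have : (rad3 t : ℝ) ≤ ((2 * T : ℕ) : ℝ) := by exact_mod_cast h1.trans (by omega)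
        linarith
      have h3 : 8 ^ k < 2 * T := by exact_mod_cast h2
      have h4 : k < 8 ^ k := Nat.lt_pow_self (by norm_num)
      omega
    rw [Finset.mem_biUnion]
    refine ⟨k, Finset.mem_Ico.2 ⟨hkk0, hkT⟩, ?_⟩
    rw [Finset.mem_biUnion]
    refine ⟨t, ?_, Finset.mem_filter.2 ⟨hN, hdvd⟩⟩
    rw [hS, Finset.mem_filter]
    exact ⟨(Set.Finite.mem_toFinset _).2 ⟨ht, hk1⟩, hk2⟩
  have h1 : (B.card : ℝ) ≤ ∑ k ∈ Finset.Ico k0 (k0 + 2 * T), ∑ t ∈ S k,
        (((Finset.Icc 1 T).filter (fun N => rad3 t ∣ 2 * N)).card : ℝ) := by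
    have h2 := (Finset.card_le_card hsub).trans (Finset.card_biUnion_le.trans
      (Finset.sum_le_sum fun k _ => Finset.card_biUnion_le))
    exact_mod_cast h2
  have h2 : ∀ k, ∑ t ∈ S k, (((Finset.Icc 1 T).filter (fun N => rad3 t ∣ 2 * N)).card : ℝ) ≤
      8 * C * T * (1 / 2) ^ k := by
    intro k
    have h3 : ∀ t ∈ S k, (((Finset.Icc 1 T).filter (fun N => rad3 t ∣ 2 * N)).card : ℝ) ≤
        2 * T / 8 ^ k := by
      intro t ht
      rw [hS, Finset.mem_filter] at ht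
      have h4 : (((Finset.Icc 1 T).filter (fun N => rad3 t ∣ 2 * N)).card : ℝ) ≤
          ((2 * T / rad3 t : ℕ) : ℝ) := by exact_mod_cast card_dvd_two_mul T (rad3 t)
      refine h4.trans (Nat.cast_div_le.trans ?_)
      push_cast
      exact div_le_div_of_nonneg_left (by positivity) (by positivity) ht.2.le
    refine (Finset.sum_le_sum h3).trans ?_
    rw [Finset.sum_const, nsmul_eq_mul]
    have h5 := mul_le_mul_of_nonneg_right (hScard k) (by positivity : (0 : ℝ) ≤ 2 * T / 8 ^ k)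
    refine h5.trans (le_of_eq ?_)
    rw [show (8 : ℝ) ^ k = 4 ^ k * 2 ^ k by rw [← mul_pow]; norm_num, pow_succ, one_div, inv_pow]
    field_simp
    ring
  have h3 : ∑ k ∈ Finset.Ico k0 (k0 + 2 * T), 8 * C * T * (1 / 2 : ℝ) ^ k ≤ ε * T := by
    rw [← Finset.mul_sum]
    have h4 : ∑ k ∈ Finset.Ico k0 (k0 + 2 * T), (1 / 2 : ℝ) ^ k ≤ 2 * (1 / 2) ^ k0 := by
      rw [Finset.sum_Ico_eq_sum_range]
      simp only [pow_add]
      rw [← Finset.mul_sum]
      have h5 : ∑ i ∈ Finset.range (k0 + 2 * T - k0), (1 / 2 : ℝ) ^ i ≤ 2 := by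
        have h6 : ∀ n : ℕ, ∑ i ∈ Finset.range n, (1 / 2 : ℝ) ^ i = 2 - 2 * (1 / 2) ^ n := by
          intro n
          induction n with
          | zero => simp
          | succ n ih => rw [Finset.sum_range_succ, ih, pow_succ]; ring
        rw [h6]
        have : (0 : ℝ) ≤ (1 / 2) ^ (k0 + 2 * T - k0) := by positivity
        linarith
      have h7 : (0 : ℝ) ≤ (1 / 2 : ℝ) ^ k0 := by positivity
      nlinarith
    have h5 : (0 : ℝ) ≤ 8 * C * T := by positivity
    refine (mul_le_mul_of_nonneg_left h4 h5).trans ?_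
    have h6 : 8 * C * T * (2 * (1 / 2 : ℝ) ^ k0) = (16 * C / 2 ^ k0) * T := by
      rw [one_div, inv_pow]; field_simp; ring
    rw [h6]
    exact mul_le_mul_of_nonneg_right hk0 (Nat.cast_nonneg _)
  exact h1.trans ((Finset.sum_le_sum fun k _ => h2 k).trans h3)

end Pool.Agent.Q231.SH
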