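import Mathlib

/-!
# Good reduction of configurations of rational points of the line

A product of linear forms with a model over the integers whose reduction is squarefree: the cross
ratios of the roots are units.
-/

set_option autoImplicit false

namespace Pool.Agent.Q231.SH

open Polynomial

/-- two rational numbers, not both zero, are proportional to coprime integers -/
lemma exists_coprime_rep (x y : ℚ) (h : ¬ (x = 0 ∧ y = 0)) :
    ∃ (c : ℚ) (s r : ℤ), c ≠ 0 ∧ IsCoprime s r ∧ x = c * s ∧ y = c * r := by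
  set D : ℤ := (x.den : ℤ) * y.den with hD
  set x1 : ℤ := x.num * y.den with hx1
  set y1 : ℤ := y.num * x.den with hy1
  have hxd : (x.den : ℚ) ≠ 0 := by exact_mod_cast x.den_ne_zero
  have hyd : (y.den : ℚ) ≠ 0 := by exact_mod_cast y.den_ne_zero
  have hDq : (D : ℚ) ≠ 0 := by rw [hD]; push_cast; exact mul_ne_zero hxd hyd
  have ex : x * D = x1 := by
    have := Rat.mul_den_eq_num x
    rw [hD, hx1]; push_cast
    rw [← this]; ring
  have ey : y * D = y1 := by
    have := Rat.mul_den_eq_num y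
    rw [hD, hy1]; push_cast
    rw [← this]; ring
  have hg : Int.gcd x1 y1 ≠ 0 := by
    intro h0
    rw [Int.gcd_eq_zero_iff] at h0
    apply h
    constructor
    · have : x * D = 0 := by rw [ex, h0.1]; simp
      exact (mul_eq_zero.1 this).resolve_right hDq
    · have : y * D = 0 := by rw [ey, h0.2]; simp
      exact (mul_eq_zero.1 this).resolve_right hDq
  obtain ⟨g, s, r, hg0, hco, hs, hr⟩ : ∃ (g : ℤ) (s r : ℤ), g ≠ 0 ∧ IsCoprime s r ∧
      x1 = g * s ∧ y1 = g * r := by
    refine ⟨Int.gcd x1 y1, x1 / Int.gcd x1 y1, y1 / Int.gcd x1 y1, by exact_mod_cast hg, ?_, ?_, ?_⟩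
    · rw [Int.isCoprime_iff_gcd_eq_one]
      exact Int.gcd_div_gcd_div_gcd (Nat.pos_of_ne_zero hg)
    · rw [Int.mul_ediv_cancel' (Int.gcd_dvd_left _ _)]
    · rw [Int.mul_ediv_cancel' (Int.gcd_dvd_right _ _)]
  refine ⟨(g : ℚ) / D, s, r, div_ne_zero (by exact_mod_cast hg0) hDq, hco, ?_, ?_⟩
  · rw [div_mul_eq_mul_div, eq_div_iff hDq, ex, hs]; push_cast; ring
  · rw [div_mul_eq_mul_div, eq_div_iff hDq, ey, hr]; push_cast; ring

lemma isPrimitive_linear {s r : ℤ} (h : IsCoprime s r) :
    (C s * X + C r : ℤ[X]).IsPrimitive := by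
  intro q hq
  rw [C_dvd_iff_dvd_coeff] at hq
  have h1 := hq 1
  have h0 := hq 0
  rw [coeff_add, coeff_C_mul, coeff_X_one, mul_one, coeff_C_of_ne_zero one_ne_zero, add_zero] at h1
  rw [coeff_add, coeff_C_mul, coeff_X_zero, mul_zero, coeff_C_zero, zero_add] at h0
  exact h.isUnit_of_dvd' h1 h0

lemma isPrimitive_prod {ι : Type*} (t : Finset ι) (f : ι → ℤ[X])
    (h : ∀ i ∈ t, (f i).IsPrimitive) : (∏ i ∈ t, f i).IsPrimitive := by
  classical
  induction t using Finset.induction_on with
  | empty => simp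
  | insert a t ha ih =>
    rw [Finset.prod_insert ha]
    exact (h a (Finset.mem_insert_self _ _)).mul
      (ih (fun i hi => h i (Finset.mem_insert_of_mem hi)))

/-- a rational multiple of a primitive polynomial with integral coefficients is an integral
multiple -/
lemma eq_C_mul_of_primitive {F G : ℤ[X]} (hG : G.IsPrimitive) {q : ℚ}
    (h : F.map (Int.castRingHom ℚ) = C q * G.map (Int.castRingHom ℚ)) :
    ∃ m : ℤ, F = C m * G := by
  have hden : (q.den : ℚ) ≠ 0 := by exact_mod_cast q.den_ne_zero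
  have h1 : C (q.den : ℤ) * F = C q.num * G := by
    apply Polynomial.map_injective (Int.castRingHom ℚ) Int.cast_injective
    rw [Polynomial.map_mul, Polynomial.map_mul, h, map_C, map_C, ← mul_assoc, ← C_mul]
    congr 2
    have := Rat.mul_den_eq_num q
    simp only [eq_intCast, Int.cast_natCast]
    rw [← this]; ring
  have h2 := congrArg content h1
  rw [content_C_mul, content_C_mul, hG.content_eq_one, mul_one] at h2
  have h3 : (q.den : ℤ) ∣ q.num := by
    have h4 : normalize (q.den : ℤ) ∣ normalize q.num := ⟨_, h2.symm⟩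
    rwa [normalize_dvd_iff, dvd_normalize_iff] at h4
  have h5 : q.den = 1 := by
    have h6 := q.reduced
    have h7 : q.den ∣ q.num.natAbs := by
      rw [← Int.natCast_dvd]; exact h3
    exact Nat.Coprime.eq_one_of_dvd h6.symm h7
  refine ⟨q.num, ?_⟩
  rw [h5] at h1
  simpa using h1

/-- The reductions of the roots are different. -/
lemma not_dvd_det {ι : Type*} [Fintype ι] [DecidableEq ι] {p : ℕ} [hp : Fact p.Prime]
    (s r : ι → ℤ) (hco : ∀ i, IsCoprime (s i) (r i)) (m : ℤ)
    (hsq : Squarefree ((C m * ∏ i, (C (s i) * X + C (r i)) : ℤ[X]).map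
      (Int.castRingHom (ZMod p))))
    (hdeg : Fintype.card ι - 1 ≤ ((C m * ∏ i, (C (s i) * X + C (r i)) : ℤ[X]).map
      (Int.castRingHom (ZMod p))).natDegree) {i j : ι} (hij : i ≠ j) :
    ¬ (p : ℤ) ∣ s i * r j - s j * r i := by
  intro hdvd
  set l : ι → (ZMod p)[X] := fun k => C (s k : ZMod p) * X + C (r k : ZMod p) with hl
  have hF : (C m * ∏ i, (C (s i) * X + C (r i)) : ℤ[X]).map (Int.castRingHom (ZMod p)) =
      C (m : ZMod p) * ∏ k, l k := by
    rw [Polynomial.map_mul, Polynomial.map_prod, map_C]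
    simp [hl]
  rw [hF] at hsq hdeg
  have hz : (s i : ZMod p) * r j = s j * r i := by
    have := (ZMod.intCast_zmod_eq_zero_iff_dvd _ p).2 hdvd
    push_cast at this
    exact sub_eq_zero.1 this
  have hne : ∀ k, ¬ ((s k : ZMod p) = 0 ∧ (r k : ZMod p) = 0) := by
    rintro k ⟨h1, h2⟩
    rw [ZMod.intCast_zmod_eq_zero_iff_dvd] at h1 h2
    have h3 := (hco k).isUnit_of_dvd' h1 h2
    have h4 : (p : ℤ).natAbs = 1 := Int.isUnit_iff_natAbs_eq.1 h3
    exact hp.out.one_lt.ne' (by simpa using h4)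
  have hprodij : ∏ k, l k = l i * (l j * ∏ k ∈ (Finset.univ.erase i).erase j, l k) := by
    rw [← Finset.mul_prod_erase _ _ (Finset.mem_univ i), ← Finset.mul_prod_erase _ _
      (Finset.mem_erase.2 ⟨hij.symm, Finset.mem_univ j⟩)]
  by_cases hs : (s i : ZMod p) = 0 ∧ (s j : ZMod p) = 0
  · -- the degree is too small
    have hcard : 2 ≤ Fintype.card ι := by
      have h1 : ({i, j} : Finset ι).card = 2 := Finset.card_pair hij
      rw [← h1]
      exact Finset.card_le_univ _
    have hli : (l i).natDegree = 0 := by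
      simp only [hl]; rw [hs.1]; simp
    have hlj : (l j).natDegree = 0 := by
      simp only [hl]; rw [hs.2]; simp
    have hlk : ∀ k, (l k).natDegree ≤ 1 := fun k => natDegree_linear_le
    have h1 : (C (m : ZMod p) * ∏ k, l k).natDegree ≤ Fintype.card ι - 2 := by
      refine (natDegree_C_mul_le _ _).trans ?_
      rw [hprodij]
      refine (natDegree_mul_le.trans (Nat.add_le_add_left natDegree_mul_le _)).trans ?_
      rw [hli, hlj, zero_add, zero_add]
      refine (natDegree_prod_le _ _).trans ?_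
      refine (Finset.sum_le_sum (fun k _ => hlk k)).trans ?_
      rw [Finset.sum_const, smul_eq_mul, mul_one, Finset.card_erase_of_mem
        (Finset.mem_erase.2 ⟨hij.symm, Finset.mem_univ j⟩), Finset.card_erase_of_mem
        (Finset.mem_univ i), Finset.card_univ]
      omega
    omega
  · -- a square divides
    have hsi : (s i : ZMod p) ≠ 0 := by
      intro h0
      rw [h0, zero_mul] at hz
      rcases mul_eq_zero.1 hz.symm with h1 | h1
      · exact hs ⟨h0, h1⟩
      · exact hne i ⟨h0, h1⟩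
    have hlj : l j = C ((s j : ZMod p) / s i) * l i := by
      simp only [hl]
      rw [mul_add, ← mul_assoc, ← C_mul, ← C_mul, div_mul_cancel₀ _ hsi]
      congr 2
      rw [div_mul_eq_mul_div, eq_div_iff hsi, ← hz]
      ring
    have hdv : l i * l i ∣ C (m : ZMod p) * ∏ k, l k := by
      rw [hprodij, hlj]
      refine ⟨C (m : ZMod p) * (C ((s j : ZMod p) / s i) *
        ∏ k ∈ (Finset.univ.erase i).erase j, l k), ?_⟩
      ring
    have hu := hsq _ hdv
    have h1 : (l i).natDegree = 1 := natDegree_linear hsi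
    have h2 := natDegree_eq_zero_of_isUnit hu
    omega

/-- `p` divides neither the numerator nor the denominator -/
def UnitAt (p : ℕ) (t : ℚ) : Prop := ¬ (p : ℤ) ∣ t.num ∧ ¬ p ∣ t.den

lemma unitAt_of_ratio {p : ℕ} (hp : p.Prime) {t : ℚ} {u w : ℤ} (hu : ¬ (p : ℤ) ∣ u)
    (hw : ¬ (p : ℤ) ∣ w) (h : t * w = u) : UnitAt p t := by
  have hpz : Prime (p : ℤ) := Nat.prime_iff_prime_int.1 hp
  have h1 : t.num * w = u * t.den := by
    have h2 := Rat.mul_den_eq_num t
    have h3 : ((t.num * w : ℤ) : ℚ) = ((u * t.den : ℤ) : ℚ) := by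
      push_cast
      rw [← h2, ← h]; ring
    exact_mod_cast h3
  have hred : ¬ ((p : ℤ) ∣ t.num ∧ p ∣ t.den) := by
    rintro ⟨h2, h3⟩
    have h4 : p ∣ t.num.natAbs := Int.natCast_dvd.1 h2
    have h5 := Nat.dvd_gcd h4 h3
    rw [t.reduced] at h5
    exact hp.one_lt.ne' (Nat.dvd_one.1 h5)
  constructor
  · intro h2
    have h3 : (p : ℤ) ∣ u * t.den := h1 ▸ Dvd.dvd.mul_right h2 w
    rcases hpz.dvd_or_dvd h3 with h4 | h4
    · exact hu h4
    · exact hred ⟨h2, by exact_mod_cast h4⟩
  · intro h2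
    have h3 : (p : ℤ) ∣ t.num * w := by
      rw [h1]; exact Dvd.dvd.mul_left (by exact_mod_cast h2) u
    rcases hpz.dvd_or_dvd h3 with h4 | h4
    · exact hred ⟨h4, h2⟩
    · exact hw h4

/-- The cross ratio `(a i - a 0) (a 1 - a 2) / ((a i - a 2) (a 1 - a 0))` of four of the points,
and `1` minus it, are units at `p`, if the points have a model with squarefree reduction. -/
theorem cross_unit {ι : Type*} [Fintype ι] [DecidableEq ι] {p : ℕ} (hp : p.Prime) (a : ι → ℚ)
    (α β γ δ u : ℚ) (F : ℤ[X]) (hdet : α * δ - β * γ ≠ 0)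
    (hF : F.map (Int.castRingHom ℚ) =
      C u * ∏ i, (C (α - a i * γ) * X + C (β - a i * δ)))
    (hsq : Squarefree (F.map (Int.castRingHom (ZMod p))))
    (hdeg : Fintype.card ι - 1 ≤ (F.map (Int.castRingHom (ZMod p))).natDegree)
    {i j k l : ι} (hij : i ≠ j) (hik : i ≠ k) (hjk : j ≠ k) (hil : i ≠ l)
    (hjl : j ≠ l) (hkl : k ≠ l) (ha : Function.Injective a) :
    UnitAt p ((a i - a j) * (a k - a l) / ((a i - a l) * (a k - a j))) ∧
      UnitAt p (1 - (a i - a j) * (a k - a l) / ((a i - a l) * (a k - a j))) := by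
  have : Fact p.Prime := ⟨hp⟩
  have hrep : ∀ i, ∃ (c : ℚ) (s r : ℤ), c ≠ 0 ∧ IsCoprime s r ∧ α - a i * γ = c * s ∧
      β - a i * δ = c * r := by
    intro i
    apply exists_coprime_rep
    rintro ⟨h1, h2⟩
    apply hdet
    have h3 : α = a i * γ := by linarith
    have h4 : β = a i * δ := by linarith
    rw [h3, h4]; ring
  choose c s r hc hco hs hr using hrep
  have hG : (∏ i, (C (s i) * X + C (r i)) : ℤ[X]).IsPrimitive :=
    isPrimitive_prod _ _ (fun i _ => isPrimitive_linear (hco i))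
  have hFG : F.map (Int.castRingHom ℚ) = C (u * ∏ i, c i) *
      (∏ i, (C (s i) * X + C (r i)) : ℤ[X]).map (Int.castRingHom ℚ) := by
    rw [hF, C_mul, mul_assoc]
    congr 1
    rw [Polynomial.map_prod, map_prod, ← Finset.prod_mul_distrib]
    refine Finset.prod_congr rfl fun i _ => ?_
    rw [hs i, hr i, Polynomial.map_add, Polynomial.map_mul, Polynomial.map_C, Polynomial.map_C,
      Polynomial.map_X, C_mul, C_mul]
    simp only [eq_intCast]
    ring
  obtain ⟨m, hm⟩ := eq_C_mul_of_primitive hG hFG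
  rw [hm] at hsq hdeg
  have hD : ∀ i j, i ≠ j → ¬ (p : ℤ) ∣ s i * r j - s j * r i := fun i j hij =>
    not_dvd_det s r hco m hsq hdeg hij
  have hrel : ∀ i j, c i * c j * ((s i * r j - s j * r i : ℤ) : ℚ) =
      (a i - a j) * (α * δ - β * γ) := by
    intro i j
    push_cast
    have h1 : c i * c j * ((s i : ℚ) * r j - s j * r i) =
        (c i * s i) * (c j * r j) - (c j * s j) * (c i * r i) := by ring
    rw [h1, ← hs i, ← hr i, ← hs j, ← hr j]
    ring
  have hpz : Prime (p : ℤ) := Nat.prime_iff_prime_int.1 hp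
  have hmul : ∀ {x y : ℤ}, ¬ (p : ℤ) ∣ x → ¬ (p : ℤ) ∣ y → ¬ (p : ℤ) ∣ x * y := by
    intro x y hx hy h
    rcases hpz.dvd_or_dvd h with h1 | h1
    · exact hx h1
    · exact hy h1
  have hne : ∀ {i j}, i ≠ j → a i - a j ≠ 0 := fun h h0 => h (ha (sub_eq_zero.1 h0))
  have hden : (a i - a l) * (a k - a j) ≠ 0 := mul_ne_zero (hne hil) (hne hjk.symm)
  set d : ι → ι → ℤ := fun x y => s x * r y - s y * r x with hd
  have hc4 : c i * c j * c k * c l ≠ 0 :=
    mul_ne_zero (mul_ne_zero (mul_ne_zero (hc i) (hc j)) (hc k)) (hc l)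
  have e1 : (a i - a j) * (a k - a l) / ((a i - a l) * (a k - a j)) * ((d i l * d k j : ℤ) : ℚ) =
      ((d i j * d k l : ℤ) : ℚ) := by
    have h1 := hrel i j
    have h2 := hrel k l
    have h3 := hrel i l
    have h4 := hrel k j
    rw [div_mul_eq_mul_div, div_eq_iff hden]
    apply mul_right_cancel₀ hc4
    apply mul_right_cancel₀ (pow_ne_zero 2 hdet)
    have h5 : c i * c l * ((d i l : ℤ) : ℚ) * (c k * c j * ((d k j : ℤ) : ℚ)) =
        (a i - a l) * (α * δ - β * γ) * ((a k - a j) * (α * δ - β * γ)) := by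
      rw [← h3, ← h4]
    have h6 : c i * c j * ((d i j : ℤ) : ℚ) * (c k * c l * ((d k l : ℤ) : ℚ)) =
        (a i - a j) * (α * δ - β * γ) * ((a k - a l) * (α * δ - β * γ)) := by
      rw [← h1, ← h2]
    push_cast
    linear_combination ((a i - a j) * (a k - a l) * (α * δ - β * γ) ^ 2) * h5 -
      ((a i - a l) * (a k - a j) * (α * δ - β * γ) ^ 2) * h6
  have e2 : (1 - (a i - a j) * (a k - a l) / ((a i - a l) * (a k - a j))) *
      ((d i l * d k j : ℤ) : ℚ) = ((d l j * d i k : ℤ) : ℚ) := by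
    have h1 := hrel l j
    have h2 := hrel i k
    have h3 := hrel i l
    have h4 := hrel k j
    have h0 : 1 - (a i - a j) * (a k - a l) / ((a i - a l) * (a k - a j)) =
        (a l - a j) * (a i - a k) / ((a i - a l) * (a k - a j)) := by
      rw [eq_div_iff hden, sub_mul, div_mul_cancel₀ _ hden]
      ring
    rw [h0, div_mul_eq_mul_div, div_eq_iff hden]
    apply mul_right_cancel₀ hc4
    apply mul_right_cancel₀ (pow_ne_zero 2 hdet)
    have h5 : c i * c l * ((d i l : ℤ) : ℚ) * (c k * c j * ((d k j : ℤ) : ℚ)) =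
        (a i - a l) * (α * δ - β * γ) * ((a k - a j) * (α * δ - β * γ)) := by
      rw [← h3, ← h4]
    have h6 : c l * c j * ((d l j : ℤ) : ℚ) * (c i * c k * ((d i k : ℤ) : ℚ)) =
        (a l - a j) * (α * δ - β * γ) * ((a i - a k) * (α * δ - β * γ)) := by
      rw [← h1, ← h2]
    push_cast
    linear_combination ((a l - a j) * (a i - a k) * (α * δ - β * γ) ^ 2) * h5 -
      ((a i - a l) * (a k - a j) * (α * δ - β * γ) ^ 2) * h6
  exact ⟨unitAt_of_ratio hp (hmul (hD i j hij) (hD k l hkl)) (hmul (hD i l hil) (hD k j hjk.symm)) e1,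
    unitAt_of_ratio hp (hmul (hD l j hjl.symm) (hD i k hik)) (hmul (hD i l hil) (hD k j hjk.symm)) e2⟩

end Pool.Agent.Q231.SH
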