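import Pool.Agent.Q231.SH.Red

/-!
# Solutions of the unit equation and abc triples
-/

set_option autoImplicit false

namespace Pool.Agent.Q231.SH

/-- coprime `1 ≤ a ≤ b` -/
def IsTriple (t : ℕ × ℕ) : Prop := 0 < t.1 ∧ t.1 ≤ t.2 ∧ Nat.Coprime t.1 t.2

/-- the six cross ratios of a triple -/
def six (t : ℕ × ℕ) : Finset ℚ :=
  {(t.1 : ℚ) / ((t.1 + t.2 : ℕ) : ℚ), (t.2 : ℚ) / ((t.1 + t.2 : ℕ) : ℚ),
    ((t.1 + t.2 : ℕ) : ℚ) / t.1, ((t.1 + t.2 : ℕ) : ℚ) / t.2, -(t.1 : ℚ) / t.2, -(t.2 : ℚ) / t.1}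

lemma mem_six_of {x y : ℕ} (hx : 0 < x) (hy : 0 < y) (h : Nat.Coprime x y) :
    ∃ t, IsTriple t ∧ t.1 * t.2 * (t.1 + t.2) = x * y * (x + y) ∧
      (x : ℚ) / ((x + y : ℕ) : ℚ) ∈ six t ∧ ((x + y : ℕ) : ℚ) / x ∈ six t ∧
      -(x : ℚ) / y ∈ six t := by
  rcases le_total x y with hxy | hxy
  · refine ⟨(x, y), ⟨hx, hxy, h⟩, rfl, ?_, ?_, ?_⟩ <;> simp [six]
  · refine ⟨(y, x), ⟨hy, hxy, h.symm⟩, by ring, ?_, ?_, ?_⟩ <;> simp [six, add_comm]

/-- Every rational number different from `0` and `1` comes from an abc triple. -/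
lemma exists_triple (t : ℚ) (h0 : t ≠ 0) (h1 : t ≠ 1) :
    ∃ s, IsTriple s ∧ t ∈ six s ∧
      s.1 * s.2 * (s.1 + s.2) = t.num.natAbs * t.den * (t.den - t.num).natAbs := by
  have hden : 0 < t.den := t.den_pos
  have hnum : t.num ≠ 0 := Rat.num_ne_zero.2 h0
  have ht : t = (t.num : ℚ) / (t.den : ℚ) := (Rat.num_div_den t).symm
  have hred := t.reduced
  have hneq : t.num ≠ t.den := by
    intro h
    apply h1
    rw [ht, h]
    have : (t.den : ℚ) ≠ 0 := by exact_mod_cast hden.ne'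
    simp only [Int.cast_natCast]
    exact div_self this
  rcases lt_trichotomy t.num 0 with hn | hn | hn
  · -- `t < 0`: `x = |num|`, `y = den`, `t = - x / y`
    obtain ⟨s, hs, he, -, -, h3⟩ := mem_six_of (x := t.num.natAbs) (y := t.den)
      (Int.natAbs_pos.2 hnum) hden hred
    have e1 : ((t.num.natAbs : ℕ) : ℚ) = -(t.num : ℚ) := by
      have : ((t.num.natAbs : ℕ) : ℤ) = -t.num := by omega
      rw [← Int.cast_natCast, this, Int.cast_neg]
    refine ⟨s, hs, ?_, ?_⟩
    · rw [e1, neg_neg, ← ht] at h3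
      exact h3
    · rw [he]
      congr 1
      omega
  · exact absurd hn hnum
  · rcases lt_trichotomy t.num t.den with hd | hd | hd
    · -- `0 < t < 1`: `x = num`, `y = den - num`
      have hy : 0 < t.den - t.num.natAbs := by omega
      have hco : Nat.Coprime t.num.natAbs (t.den - t.num.natAbs) := by
        rw [Nat.coprime_sub_self_right (by omega)]
        exact hred
      obtain ⟨s, hs, he, h3, -, -⟩ := mem_six_of (x := t.num.natAbs)
        (y := t.den - t.num.natAbs) (Int.natAbs_pos.2 hnum) hy hco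
      have e2 : t.num.natAbs + (t.den - t.num.natAbs) = t.den := by omega
      have e1 : ((t.num.natAbs : ℕ) : ℚ) = (t.num : ℚ) := by
        have : ((t.num.natAbs : ℕ) : ℤ) = t.num := by omega
        rw [← Int.cast_natCast, this]
      refine ⟨s, hs, ?_, ?_⟩
      · rw [e2, e1, ← ht] at h3
        exact h3
      · rw [he, e2]
        have e3 : ((t.den : ℤ) - t.num).natAbs = t.den - t.num.natAbs := by omega
        rw [e3]; ring
    · exact absurd hd hneq
    · -- `1 < t`: `x = den`, `y = num - den`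
      have hy : 0 < t.num.natAbs - t.den := by omega
      have hco : Nat.Coprime t.den (t.num.natAbs - t.den) := by
        rw [Nat.coprime_sub_self_right (by omega)]
        exact hred.symm
      obtain ⟨s, hs, he, -, h3, -⟩ := mem_six_of (x := t.den)
        (y := t.num.natAbs - t.den) hden hy hco
      have e2 : t.den + (t.num.natAbs - t.den) = t.num.natAbs := by omega
      have e1 : ((t.num.natAbs : ℕ) : ℚ) = (t.num : ℚ) := by
        have : ((t.num.natAbs : ℕ) : ℤ) = t.num := by omega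
        rw [← Int.cast_natCast, this]
      refine ⟨s, hs, ?_, ?_⟩
      · rw [e2, e1, ← ht] at h3
        exact h3
      · rw [he, e2]
        have e3 : ((t.den : ℤ) - t.num).natAbs = t.num.natAbs - t.den := by omega
        rw [e3]; ring

/-- A unit whose difference from one is a unit outside the primes dividing `2 N` comes from an
abc triple whose primes divide `2 N`. -/
lemma exists_triple_of_unit (t : ℚ) (h0 : t ≠ 0) (h1 : t ≠ 1) (N : ℕ)
    (h : ∀ p : ℕ, p.Prime → p ≠ 2 → ¬ p ∣ N → UnitAt p t ∧ UnitAt p (1 - t)) :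
    ∃ s, IsTriple s ∧ t ∈ six s ∧ ∀ p : ℕ, p.Prime → p ∣ s.1 * s.2 * (s.1 + s.2) → p ∣ 2 * N := by
  obtain ⟨s, hs, h6, he⟩ := exists_triple t h0 h1
  refine ⟨s, hs, h6, fun p hp hdvd => ?_⟩
  rw [he] at hdvd
  by_contra hcon
  have hp2 : p ≠ 2 := by
    rintro rfl
    exact hcon (Dvd.intro _ rfl)
  have hpN : ¬ p ∣ N := fun h2 => hcon (Dvd.dvd.mul_left h2 2)
  obtain ⟨⟨hu1, hu2⟩, ⟨hu3, hu4⟩⟩ := h p hp hp2 hpN
  rcases (Nat.Prime.dvd_mul hp).1 hdvd with h2 | h2
  · rcases (Nat.Prime.dvd_mul hp).1 h2 with h3 | h3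
    · exact hu1 (Int.natCast_dvd.2 h3)
    · exact hu2 h3
  · -- `p` divides the numerator of `1 - t`
    have h3 : (p : ℤ) ∣ (t.den : ℤ) - t.num := Int.natCast_dvd.2 h2
    have h4 : (1 - t).num * t.den = ((t.den : ℤ) - t.num) * (1 - t).den := by
      have e1 := Rat.mul_den_eq_num t
      have e2 := Rat.mul_den_eq_num (1 - t)
      have e3 : (((1 - t).num * t.den : ℤ) : ℚ) =
          ((((t.den : ℤ) - t.num) * (1 - t).den : ℤ) : ℚ) := by
        push_cast
        rw [← e1, ← e2]; ring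
      exact_mod_cast e3
    have h5 : (p : ℤ) ∣ (1 - t).num * t.den := by
      rw [h4]; exact Dvd.dvd.mul_right h3 _
    rcases (Nat.prime_iff_prime_int.1 hp).dvd_or_dvd h5 with h6 | h6
    · exact hu3 h6
    · exact hu2 (by exact_mod_cast h6)

end Pool.Agent.Q231.SH
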